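import Pool.Agent.Undec.Fin

/-!
# MP_732884_lc: inclusion of a regular language in a shuffle of deterministic languages

The problem is undecidable, already for `L` and `L₁` given by deterministic finite automata and
`L₂` given by a deterministic 1-reversal-bounded one-counter machine (DCM(1,1)), and even with
`L₁` and `L₂` fixed. The definitions are in `Pool/Agent/Undec/Model.lean`.
-/

namespace Pool.Agent.Results.MP_732884_lc

open Pool.Agent.Undec

/-- **Undecidability.** (1) There are a fixed deterministic finite automaton `A₁` and a fixed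
DCM(1,1) `M₂` such that no algorithm decides, given a deterministic finite automaton `A`,
whether `L(A)` is included in the shuffle of `L(A₁)` and `L(M₂)`.
(2) In particular, no algorithm decides, given deterministic finite automata `A`, `A₁` and a
DCM(1,1) `M₂`, whether `L(A)` is included in the shuffle of `L(A₁)` and `L(M₂)`. -/
theorem ShuffleInclusion.result :
    (∃ (A₁ : FA) (M₂ : CM), A₁.Det ∧ M₂.IsDCM11 ∧
      ¬ ∃ F : FA → Bool, Computable F ∧
        ∀ A : FA, A.Det → (F A = true ↔ A.lang ⊆ shuffle A₁.lang M₂.lang)) ∧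
    (¬ ∃ F : FA × FA × CM → Bool, Computable F ∧
      ∀ (A A₁ : FA) (M₂ : CM), A.Det → A₁.Det → M₂.IsDCM11 →
        (F (A, A₁, M₂) = true ↔ A.lang ⊆ shuffle A₁.lang M₂.lang)) := by
  obtain ⟨M₂, hM, hun⟩ := fixed_undec
  refine ⟨⟨A1, M₂, A1_det, hM, hun⟩, ?_⟩
  rintro ⟨F, hF, h⟩
  exact hun ⟨fun A => F (A, A1, M₂),
    hF.comp (Computable.pair Computable.id (Computable.const (A1, M₂))),
    fun A hA => h A A1 M₂ hA A1_det hM⟩

end Pool.Agent.Results.MP_732884_lc
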